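import Pool.Agent.H6.FB.Stmts

/-!
# Project FB (MP_d89f1e_an): CRA
-/

set_option autoImplicit false

open Metric Set Filter Topology

namespace Pool.Agent.H6.FB

/-- a bad disc of `f` does not lie in the common range -/
lemma cra_disc (hINV : INVStmt) (hHUR : HURStmt)
    {E : Type} [NormedAddCommGroup E] [NormedSpace ℂ E] [FiniteDimensional ℂ E] {f : E → E}
    (hN : Nice f) (hinj : InjOn f (closedBall 0 1)) {d : ℂ → E} (hd : Bad f d)
    {Ω : Set E} {Ψ : ℕ → E → E}
    (hΨ : ∀ k, Differentiable ℂ (Ψ k) ∧ Function.Injective (Ψ k) ∧ Set.range (Ψ k) = Ω)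
    (hunif : ∀ r < 1, TendstoUniformlyOn Ψ f atTop (closedBall 0 r))
    (hdΩ : ∀ ζ ∈ closedBall (0 : ℂ) 1, d ζ ∈ Ω) : False := by
  have := FiniteDimensional.proper ℂ E
  obtain ⟨hdc, hdd, hds, ζ₀, hζ₀, hbad⟩ := hd
  have hK : IsCompact (d '' sphere 0 1) :=
    (isCompact_sphere (0 : ℂ) 1).image_of_continuousOn (hdc.mono sphere_subset_closedBall)
  obtain ⟨r, hr0, hr1, η, hη, hr⟩ := hHUR E f hN.2 (hinj.mono ball_subset_closedBall)
    (d '' sphere 0 1) hK (by rintro _ ⟨ζ, hζ, rfl⟩; exact hds ζ hζ)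
  have hsub : closedBall (0 : E) r ⊆ closedBall 0 1 := closedBall_subset_closedBall hr1.le
  have hcomp : IsCompact (f '' closedBall (0 : E) r) :=
    (isCompact_closedBall (0 : E) r).image_of_continuousOn (hN.1.mono hsub)
  have hnot : d ζ₀ ∈ (f '' closedBall (0 : E) r)ᶜ := fun h => hbad (image_mono hsub h)
  obtain ⟨δ, hδ, hball⟩ := Metric.isOpen_iff.1 hcomp.isClosed.isOpen_compl _ hnot
  have h1 := (Metric.tendstoUniformlyOn_iff.1 (hunif r hr1)) η hη
  have h2 := (Metric.tendstoUniformlyOn_iff.1 (hunif r hr1)) δ hδ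
  obtain ⟨k, hk1, hk2⟩ := (h1.and h2).exists
  obtain ⟨hdiff, hinjk, hran⟩ := hΨ k
  have hKk := hr (Ψ k) hdiff.differentiableOn (by
    intro z hz
    rw [← dist_eq_norm, dist_comm]
    exact hk1 z hz)
  have hg : DifferentiableOn ℂ (Function.invFun (Ψ k)) Ω := by
    have := (hINV E (Ψ k) univ isOpen_univ hdiff.differentiableOn hinjk.injOn).2
      (Function.invFun (Ψ k)) (fun z _ => Function.leftInverse_invFun hinjk z)
    rwa [image_univ, hran] at this
  set H : ℂ → E := fun ζ => Function.invFun (Ψ k) (d ζ) with hH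
  have hHc : ContinuousOn H (closedBall 0 1) := hg.continuousOn.comp hdc hdΩ
  have hHd : DifferentiableOn ℂ H (ball 0 1) :=
    hg.comp hdd (fun ζ hζ => hdΩ ζ (ball_subset_closedBall hζ))
  have hHinv : ∀ ζ ∈ closedBall (0 : ℂ) 1, Ψ k (H ζ) = d ζ := by
    intro ζ hζ
    apply Function.invFun_eq
    have : d ζ ∈ Set.range (Ψ k) := hran ▸ hdΩ ζ hζ
    exact this
  have hHr : ∀ ζ ∈ closedBall (0 : ℂ) 1, ‖H ζ‖ ≤ r := by
    intro ζ hζ
    refine Complex.norm_le_of_forall_mem_frontier_norm_le (U := ball (0 : ℂ) 1) isBounded_ball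
      (f := H) ⟨hHd, ?_⟩ ?_ ?_
    · rwa [closure_ball (0 : ℂ) one_ne_zero]
    · intro w hw
      rw [frontier_ball (0 : ℂ) one_ne_zero] at hw
      obtain ⟨z, hz, hzw⟩ := hKk (mem_image_of_mem d hw)
      have : H w = z := by
        rw [hH]
        simp only
        rw [← hzw, Function.leftInverse_invFun hinjk z]
      rw [this]
      simpa using hz
    · rwa [closure_ball (0 : ℂ) one_ne_zero]
  have hz : H ζ₀ ∈ closedBall (0 : E) r := by
    rw [mem_closedBall_zero_iff]; exact hHr ζ₀ hζ₀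
  have h3 := hk2 (H ζ₀) hz
  rw [hHinv ζ₀ hζ₀] at h3
  exact hball (mem_ball.2 h3) (mem_image_of_mem f hz)

theorem cra_thm (hINV : INVStmt) (hHUR : HURStmt) : CRAStmt := by
  intro E _ _ _ f hdim hN hinj hBD Ω Ψ hΨ hlim
  have := FiniteDimensional.proper ℂ E
  have hunif : ∀ r < 1, TendstoUniformlyOn Ψ f atTop (closedBall 0 r) := by
    intro r hr
    exact (tendstoLocallyUniformlyOn_iff_forall_isCompact isOpen_ball).1 hlim _
      (closedBall_subset_ball hr) (isCompact_closedBall _ _)
  have hinjb : InjOn f (ball 0 1) := hinj.mono ball_subset_closedBall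
  -- the range is open
  have hΩo : IsOpen Ω := by
    have := (hINV E (Ψ 0) univ isOpen_univ (hΨ 0).1.differentiableOn (hΨ 0).2.1.injOn).1 univ
      isOpen_univ (subset_univ _)
    rwa [image_univ, (hΨ 0).2.2] at this
  -- the image of the ball is contained in the range
  have hsub : f '' ball 0 1 ⊆ Ω := by
    rintro _ ⟨w, hw, rfl⟩
    obtain ⟨r, hr0, hr1, η, hη, hr⟩ := hHUR E f hN.2 hinjb {f w} isCompact_singleton
      (by rintro _ rfl; exact mem_image_of_mem f hw)
    obtain ⟨k, hk⟩ := ((Metric.tendstoUniformlyOn_iff.1 (hunif r hr1)) η hη).exists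
    have := hr (Ψ k) (hΨ k).1.differentiableOn (by
      intro z hz
      rw [← dist_eq_norm, dist_comm]
      exact hk z hz) (mem_singleton _)
    obtain ⟨z, -, hz⟩ := this
    rw [← hz, ← (hΨ k).2.2]
    exact mem_range_self z
  -- the boundary values are not in the range
  have hbd : ∀ v ∈ sphere (0 : E) 1, f v ∉ Ω := by
    intro v hv hvΩ
    obtain ⟨ε, hε, hball⟩ := Metric.isOpen_iff.1 hΩo _ hvΩ
    obtain ⟨d, hd, hdε⟩ := hBD v hv ε hε
    refine cra_disc hINV hHUR hN hinj hd hΨ hunif ?_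
    intro ζ hζ
    apply hball
    rw [mem_ball, dist_eq_norm]
    exact hdε ζ hζ
  have hcomp : IsCompact (f '' closedBall (0 : E) 1) :=
    (isCompact_closedBall (0 : E) 1).image_of_continuousOn hN.1
  have hopen : IsOpen (f '' ball (0 : E) 1) :=
    (hINV E f (ball 0 1) isOpen_ball hN.2 hinjb).1 _ isOpen_ball subset_rfl
  have hpre : IsPreconnected Ω := by
    rw [← (hΨ 0).2.2, ← image_univ]
    exact isPreconnected_univ.image _ (hΨ 0).1.continuous.continuousOn
  have hΩsub : Ω ⊆ f '' ball (0 : E) 1 := by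
    refine IsPreconnected.subset_left_of_subset_union hopen hcomp.isClosed.isOpen_compl ?_ ?_ ?_
      hpre
    · rw [Set.disjoint_compl_right_iff_subset]
      exact image_mono ball_subset_closedBall
    · intro y hy
      by_cases h : y ∈ f '' closedBall (0 : E) 1
      · left
        obtain ⟨w, hw, rfl⟩ := h
        by_cases h2 : w ∈ ball (0 : E) 1
        · exact mem_image_of_mem f h2
        · exfalso
          refine hbd w ?_ hy
          rw [mem_closedBall] at hw
          rw [mem_ball, not_lt] at h2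
          exact mem_sphere.2 (le_antisymm hw h2)
      · right; exact h
    · exact ⟨f 0, hsub (mem_image_of_mem f (mem_ball_self one_pos)),
        mem_image_of_mem f (mem_ball_self one_pos)⟩
  have hbdd : Bornology.IsBounded (Set.range (Ψ 0)) := by
    rw [(hΨ 0).2.2]
    exact hcomp.isBounded.subset (hΩsub.trans (image_mono ball_subset_closedBall))
  have : Nontrivial E := by
    apply Module.nontrivial_of_finrank_pos (R := ℂ)
    omega
  obtain ⟨x, y, hxy⟩ := exists_pair_ne E
  exact hxy ((hΨ 0).2.1 ((hΨ 0).1.apply_eq_apply_of_bounded hbdd x y))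

end Pool.Agent.H6.FB
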