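import Mathlib

/-!
# Project FB (MP_d89f1e_an): definitions

Plan: /team-store/MP_d89f1e_PLAN.md
-/

set_option autoImplicit false

open Metric Set Filter Topology

namespace Pool.Agent.H6.FB

noncomputable section

/-! ### Maps of the ball -/

section

variable {E : Type} [NormedAddCommGroup E] [NormedSpace ℂ E]

/-- holomorphic and injective on an open set containing the closed unit ball -/
def Good (f : E → E) : Prop :=
  ∃ U : Set E, IsOpen U ∧ closedBall (0 : E) 1 ⊆ U ∧ DifferentiableOn ℂ f U ∧ InjOn f U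

/-- continuous on the closed unit ball, holomorphic inside -/
def Nice (f : E → E) : Prop :=
  ContinuousOn f (closedBall (0 : E) 1) ∧ DifferentiableOn ℂ f (ball (0 : E) 1)

/-- `d` is a bad disc of `f` -/
def Bad (f : E → E) (d : ℂ → E) : Prop :=
  ContinuousOn d (closedBall (0 : ℂ) 1) ∧ DifferentiableOn ℂ d (ball (0 : ℂ) 1) ∧
    (∀ ζ ∈ sphere (0 : ℂ) 1, d ζ ∈ f '' ball (0 : E) 1) ∧
    ∃ ζ ∈ closedBall (0 : ℂ) 1, d ζ ∉ f '' closedBall (0 : E) 1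

/-- every value at a boundary point is approached by bad discs -/
def BD (f : E → E) : Prop :=
  ∀ v ∈ sphere (0 : E) 1, ∀ ε > 0, ∃ d : ℂ → E, Bad f d ∧
    ∀ ζ ∈ closedBall (0 : ℂ) 1, ‖d ζ - f v‖ < ε

/-- Runge pairs -/
def RungeP (D Ω : Set E) : Prop :=
  ∀ g : E → ℂ, DifferentiableOn ℂ g D → ∀ K : Set E, IsCompact K → K ⊆ D → ∀ ε : ℝ, 0 < ε →
    ∃ h : E → ℂ, DifferentiableOn ℂ h Ω ∧ ∀ z ∈ K, ‖g z - h z‖ < ε

end

/-! ### The functions of one variable -/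

/-- `exp (-64)` -/
def e0 : ℝ := Real.exp (-64)

/-- the constant `c` -/
def cc : ℝ := 2 - 3 / 2 * e0

/-- the radius `R` -/
def RR : ℝ := Real.sqrt ((2 - e0) / (2 - 3 / 2 * e0))

/-- the zero of `aa` -/
def s0 : ℝ := (1 - e0) / cc

/-- the disc where everything takes place -/
def DD : Set ℂ := ball (0 : ℂ) (RR ^ 2 / 2)

/-- `t(s) = - log (1 - c s) / 64` -/
def tt (s : ℂ) : ℂ := -(1 / 64) * Complex.log (1 - (cc : ℂ) * s)

/-- `(1 - t) exp (t + t^2 / 2)` -/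
def AA (t : ℂ) : ℂ := (1 - t) * Complex.exp (t + t ^ 2 / 2)

/-- the function `a` -/
def aa (s : ℂ) : ℂ := AA (tt s)

/-- `(exp (2 π i w) - 1) / w` -/
def E1 (w : ℂ) : ℂ := dslope (fun w : ℂ => Complex.exp (2 * Real.pi * Complex.I * w) - 1) 0 w

/-- `(exp (2 π i w) - 1) / (w (w - 1))` -/
def E2 (w : ℂ) : ℂ := dslope (fun w : ℂ => E1 (w - 1)) 0 w

/-- `t(s) / s` -/
def LL (s : ℂ) : ℂ := dslope tt 0 s

/-- the function `b` -/
def bb (s : ℂ) : ℂ :=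
  LL s * E2 (tt s) * Complex.exp (-(tt s) - tt s ^ 2 / 2) / (LL 0 * E2 0)

/-- the properties of the pair `a`, `b` which are used -/
structure Loc (a b : ℂ → ℂ) (R C : ℝ) (s₀ : ℂ) : Prop where
  one_lt : 1 < R
  lt_two : R < 2
  diffa : DifferentiableOn ℂ a (ball 0 (R ^ 2 / 2))
  diffb : DifferentiableOn ℂ b (ball 0 (R ^ 2 / 2))
  bnda : ∀ s : ℂ, ‖s‖ ≤ 1 / 2 → ‖a s - 1‖ ≤ C * ‖s‖ ^ 3
  bndb : ∀ s : ℂ, ‖s‖ ≤ 1 / 2 → ‖b s - 1‖ ≤ C * ‖s‖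
  sqa : ∀ s : ℂ, ‖s‖ ≤ 1 / 2 → ‖a s‖ ^ 2 ≤ 1 + ‖s‖ ^ 2 / 2
  s₀_ne : s₀ ≠ 0
  s₀_lt : ‖s₀‖ < 1 / 2
  a_s₀ : a s₀ = 0
  b_s₀ : 3 ≤ ‖b s₀‖
  inj : ∀ x y x' y' : ℂ, ‖x‖ < R → ‖y‖ < R → ‖x'‖ < R → ‖y'‖ < R → ‖x * y‖ < R ^ 2 / 2 →
    ‖x' * y'‖ < R ^ 2 / 2 → x * a (x * y) = x' * a (x' * y') → y * b (x * y) = y' * b (x' * y') →
    x = x' ∧ y = y'
  hole : ∀ x y : ℂ, ‖x‖ < R → ‖y‖ < R → ‖x * y‖ < R ^ 2 / 2 → x * a (x * y) = 0 →
    y * b (x * y) ≠ 2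

/-! ### The local model -/

section

variable {E : Type} [NormedAddCommGroup E] [InnerProductSpace ℂ E]

/-- the map `G` -/
def Gm (a b : ℂ → ℂ) (e e' : E) (z : E) : E :=
  z + (inner ℂ e z * (a (inner ℂ e z * inner ℂ e' z) - 1)) • e +
    (inner ℂ e' z * (b (inner ℂ e z * inner ℂ e' z) - 1)) • e'

/-- the automorphism `P_l` of the ball -/
def Pl (l : ℝ) (e : E) (z : E) : E :=
  (1 + (l : ℂ) * inner ℂ e z)⁻¹ • ((inner ℂ e z + (l : ℂ)) • e +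
    ((Real.sqrt (1 - l ^ 2) : ℝ) : ℂ) • (z - (inner ℂ e z : ℂ) • e))

end

end

end Pool.Agent.H6.FB
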