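import Pool.Agent.H6.FB.Stmts

/-!
# Project FB (MP_d89f1e_an): final assembly
-/

set_option autoImplicit false

open Metric Set Filter Topology

namespace Pool.Agent.H6.FB

/-- the space of the problem -/
abbrev EE (n : ℕ) : Type := EuclideanSpace ℂ (Fin n)

lemma fin_poly {n : ℕ} (p : MvPolynomial (Fin n) ℂ) :
    Differentiable ℂ (fun z : EE n => MvPolynomial.eval (fun i => EuclideanSpace.proj i z) p) := by
  induction p using MvPolynomial.induction_on with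
  | C a => simp
  | add p q hp hq =>
    simp only [map_add]
    exact hp.add hq
  | mul_X p i hp =>
    simp only [map_mul, MvPolynomial.eval_X]
    exact hp.mul (EuclideanSpace.proj i : EE n →L[ℂ] ℂ).differentiable

theorem fin_thm (hNRM : NRMStmt) (hCRA : CRAStmt) (hRGE : RGEStmt) (hLRG : LRGStmt)
    (n : ℕ) (hn : 2 ≤ n) (F : EE n → EE n) (hF : DifferentiableOn ℂ F (ball 0 1))
    (hFi : InjOn F (ball 0 1)) (hF0 : F 0 = 0)
    (hF1 : fderiv ℂ F 0 = ContinuousLinearMap.id ℂ (EE n)) (r ε : ℝ) (hr : r < 1) (hε : 0 < ε) :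
    ∃ f : EE n → EE n,
      ContinuousOn f (closedBall 0 1) ∧ InjOn f (closedBall 0 1) ∧
      DifferentiableOn ℂ f (ball 0 1) ∧ f 0 = 0 ∧
      fderiv ℂ f 0 = ContinuousLinearMap.id ℂ (EE n) ∧
      (∀ z ∈ closedBall (0 : EE n) r, ‖f z - F z‖ < ε) ∧
      ¬ (∀ g : EE n → ℂ, DifferentiableOn ℂ g (f '' ball 0 1) →
          ∀ K : Set (EE n), IsCompact K → K ⊆ f '' ball 0 1 → ∀ δ : ℝ, 0 < δ →
          ∃ p : MvPolynomial (Fin n) ℂ, ∀ z ∈ K,
            ‖g z - MvPolynomial.eval (fun i => EuclideanSpace.proj i z) p‖ < δ) ∧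
      (∀ Ω : Set (EE n), IsOpen Ω → IsConnected Ω → f '' ball 0 1 ⊂ Ω →
        ¬ (∀ g : EE n → ℂ, DifferentiableOn ℂ g (f '' ball 0 1) →
          ∀ K : Set (EE n), IsCompact K → K ⊆ f '' ball 0 1 → ∀ δ : ℝ, 0 < δ →
          ∃ h : EE n → ℂ, DifferentiableOn ℂ h Ω ∧ ∀ z ∈ K, ‖g z - h z‖ < δ)) ∧
      ∀ (Ω : Set (EE n)) (Ψ : ℕ → EE n → EE n),
        (∀ k, Differentiable ℂ (Ψ k) ∧ Function.Injective (Ψ k) ∧ Set.range (Ψ k) = Ω) →
        ¬ TendstoLocallyUniformlyOn Ψ f atTop (ball 0 1) := by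
  have hfr : Module.finrank ℂ (EE n) = n := by simp
  obtain ⟨f, hN, hinj, hBD, h0, h1, hclose⟩ := hNRM (EE n) (by omega) F hF hFi hF0 hF1 r ε hr hε
  refine ⟨f, hN.1, hinj, hN.2, h0, h1, hclose, ?_, ?_, ?_⟩
  · intro hR
    have : Nontrivial (EE n) := by
      apply Module.nontrivial_of_finrank_pos (R := ℂ)
      omega
    obtain ⟨v, hv⟩ : (sphere (0 : EE n) 1).Nonempty := by
      obtain ⟨v, hv⟩ := exists_norm_eq (EE n) (c := 1) zero_le_one
      exact ⟨v, by simpa using hv⟩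
    obtain ⟨d, hd, -⟩ := hBD v hv 1 one_pos
    refine hRGE (EE n) f d univ hN (hinj.mono ball_subset_closedBall) hd isOpen_univ
      (fun _ _ => mem_univ _) ?_
    intro g hg K hK hKD δ hδ
    obtain ⟨p, hp⟩ := hR g hg K hK hKD δ hδ
    exact ⟨_, (fin_poly p).differentiableOn, hp⟩
  · intro Ω hΩ hΩc hsub hR
    exact hLRG (EE n) f (by omega) hN hinj hBD Ω hΩ hΩc.isPreconnected hsub hR
  · intro Ω Ψ hΨ
    exact hCRA (EE n) f (by omega) hN hinj hBD Ω Ψ hΨ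

end Pool.Agent.H6.FB
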