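import Pool.Agent.H6.FB.Stmts

/-!
# Project FB (MP_d89f1e_an): NEA
-/

set_option autoImplicit false

open Metric Set Filter Topology

namespace Pool.Agent.H6.FB

lemma nea_real {δ y α β W u v m C : ℝ} (hδ : 0 < δ) (hy : 0 ≤ y) (hC : 0 ≤ C)
    (hα : (δ + y ^ 2) / 8 ≤ α) (hβ : (δ + y ^ 2) / 4 ≤ β) (hW : 0 ≤ W) (hW2 : W ^ 2 ≤ 2 * β)
    (hu : u ≤ C * y ^ 3) (hv : v ≤ C * y ^ 2) (hm : 0 ≤ m) (hm2 : m ^ 2 ≤ 2 * δ) :
    m ^ 2 * u / (α * β) + m * v / α + m * u * W / (α * β) ≤ 112 * C * Real.sqrt δ := by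
  set q := δ + y ^ 2 with hq
  have hq0 : 0 < q := by positivity
  have hα0 : 0 < α := by linarith [div_pos hq0 (by norm_num : (0 : ℝ) < 8)]
  have hβ0 : 0 < β := by linarith [div_pos hq0 (by norm_num : (0 : ℝ) < 4)]
  set w := Real.sqrt δ with hw
  have hw0 : 0 < w := Real.sqrt_pos.2 hδ
  have hw2 : w ^ 2 = δ := Real.sq_sqrt hδ.le
  have hyq : y ^ 2 ≤ q := by rw [hq]; linarith
  have hδq : δ ≤ q := by rw [hq]; nlinarith [sq_nonneg y]
  have hy3 : 0 ≤ y ^ 3 := by positivity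
  -- m ≤ 3/2 w
  have hmw : m ≤ 3 / 2 * w := by
    by_contra h
    push Not at h
    have : (3 / 2 * w) ^ 2 < m ^ 2 := by
      apply pow_lt_pow_left₀ h (by positivity) (by norm_num)
    nlinarith
  -- w * y^3 ≤ q^2
  have hwy : w * y ^ 3 ≤ q ^ 2 := by
    have h1 : (w * y ^ 3) ^ 2 ≤ (q ^ 2) ^ 2 := by
      have : (w * y ^ 3) ^ 2 = δ * (y ^ 2) ^ 3 := by rw [mul_pow, hw2]; ring
      rw [this]
      calc δ * (y ^ 2) ^ 3 ≤ q * q ^ 3 :=
            mul_le_mul hδq (pow_le_pow_left₀ (by positivity) hyq 3) (by positivity) hq0.le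
        _ = (q ^ 2) ^ 2 := by ring
    exact (abs_le_of_sq_le_sq' h1 (by positivity)).2
  have hαβ : q ^ 2 / 32 ≤ α * β := by
    calc q ^ 2 / 32 = q / 8 * (q / 4) := by ring
      _ ≤ α * β := mul_le_mul hα hβ (by positivity) hα0.le
  -- term 1
  have t1 : m ^ 2 * u / (α * β) ≤ 64 * C * w := by
    rw [div_le_iff₀ (by positivity)]
    calc m ^ 2 * u ≤ m ^ 2 * (C * y ^ 3) := mul_le_mul_of_nonneg_left hu (by positivity)
      _ ≤ 2 * δ * (C * y ^ 3) := mul_le_mul_of_nonneg_right hm2 (by positivity)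
      _ = 2 * C * w * (w * y ^ 3) := by rw [← hw2]; ring
      _ ≤ 2 * C * w * q ^ 2 := mul_le_mul_of_nonneg_left hwy (by positivity)
      _ = 64 * C * w * (q ^ 2 / 32) := by ring
      _ ≤ 64 * C * w * (α * β) := mul_le_mul_of_nonneg_left hαβ (by positivity)
  -- term 2
  have t2 : m * v / α ≤ 12 * C * w := by
    rw [div_le_iff₀ hα0]
    calc m * v ≤ m * (C * y ^ 2) := mul_le_mul_of_nonneg_left hv hm
      _ ≤ 3 / 2 * w * (C * y ^ 2) := mul_le_mul_of_nonneg_right hmw (by positivity)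
      _ ≤ 3 / 2 * w * (C * q) := by
          apply mul_le_mul_of_nonneg_left _ (by positivity)
          exact mul_le_mul_of_nonneg_left hyq hC
      _ = 12 * C * w * (q / 8) := by ring
      _ ≤ 12 * C * w * α := mul_le_mul_of_nonneg_left hα (by positivity)
  -- term 3
  have hyW : y ^ 3 * W ≤ 3 * q * β := by
    have h1 : (y ^ 3 * W) ^ 2 ≤ (3 * q * β) ^ 2 := by
      have h2 : (y ^ 3 * W) ^ 2 = (y ^ 2) ^ 3 * W ^ 2 := by ring
      rw [h2]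
      calc (y ^ 2) ^ 3 * W ^ 2 ≤ q ^ 3 * (2 * β) :=
            mul_le_mul (pow_le_pow_left₀ (by positivity) hyq 3) hW2 (by positivity) (by positivity)
        _ = q ^ 2 * (2 * β) * (4 * (q / 4)) := by ring
        _ ≤ q ^ 2 * (2 * β) * (4 * β) := by
            apply mul_le_mul_of_nonneg_left _ (by positivity)
            linarith
        _ ≤ (3 * q * β) ^ 2 := by nlinarith [mul_nonneg (sq_nonneg q) (sq_nonneg β)]
    exact (abs_le_of_sq_le_sq' h1 (by positivity)).2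
  have t3 : m * u * W / (α * β) ≤ 36 * C * w := by
    rw [div_le_iff₀ (by positivity)]
    calc m * u * W ≤ m * (C * y ^ 3) * W := by
            apply mul_le_mul_of_nonneg_right _ hW
            exact mul_le_mul_of_nonneg_left hu hm
      _ = m * C * (y ^ 3 * W) := by ring
      _ ≤ m * C * (3 * q * β) := mul_le_mul_of_nonneg_left hyW (by positivity)
      _ ≤ 3 / 2 * w * C * (3 * q * β) := by
            apply mul_le_mul_of_nonneg_right _ (by positivity)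
            exact mul_le_mul_of_nonneg_right hmw hC
      _ = 36 * C * w * ((q / 8) * β) := by ring
      _ ≤ 36 * C * w * (α * β) := by
            apply mul_le_mul_of_nonneg_left _ (by positivity)
            exact mul_le_mul_of_nonneg_right hα hβ0.le
  linarith

/-- the formula for the difference -/
lemma nea_formula {E : Type} [NormedAddCommGroup E] [InnerProductSpace ℂ E] (e e' z : E)
    (X U B m l α β : ℂ) (hα : α = 1 - l * U) (hβ : β = 1 - l * X) (hα0 : α ≠ 0) (hβ0 : β ≠ 0)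
    (hm : m ^ 2 = 1 - l ^ 2) :
    α⁻¹ • ((U + -l) • e + m • ((z - X • e) + B • e')) - β⁻¹ • ((X + -l) • e + m • (z - X • e)) =
      (m ^ 2 * (U - X) / (α * β)) • e + (m * B / α) • e' +
        (m * (l * (U - X)) / (α * β)) • (z - X • e) := by
  have f1 : α⁻¹ * (U + -l) - β⁻¹ * (X + -l) = m ^ 2 * (U - X) / (α * β) := by
    rw [hm]
    field_simp
    rw [hα, hβ]; ring
  have f2 : α⁻¹ * m - β⁻¹ * m = m * (l * (U - X)) / (α * β) := by
    field_simp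
    rw [hα, hβ]; ring
  have f3 : α⁻¹ * (m * B) = m * B / α := by
    field_simp
  rw [← f1, ← f2, ← f3]
  module

/-- the norm of the right hand side -/
lemma nea_norm {E : Type} [NormedAddCommGroup E] [InnerProductSpace ℂ E] (e e' Z : E)
    (he : ‖e‖ = 1) (he' : ‖e'‖ = 1) (D B α β : ℂ) (m l : ℝ) (hm : 0 ≤ m) (hl : 0 ≤ l)
    (hl1 : l ≤ 1) :
    ‖((m : ℂ) ^ 2 * D / (α * β)) • e + ((m : ℂ) * B / α) • e' +
        ((m : ℂ) * (l * D) / (α * β)) • Z‖ ≤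
      m ^ 2 * ‖D‖ / (‖α‖ * ‖β‖) + m * ‖B‖ / ‖α‖ + m * ‖D‖ * ‖Z‖ / (‖α‖ * ‖β‖) := by
  have nm : ‖(m : ℂ)‖ = m := by rw [Complex.norm_real, Real.norm_eq_abs, abs_of_nonneg hm]
  have nl : ‖(l : ℂ)‖ = l := by rw [Complex.norm_real, Real.norm_eq_abs, abs_of_nonneg hl]
  have h1 : ‖((m : ℂ) ^ 2 * D / (α * β)) • e‖ = m ^ 2 * ‖D‖ / (‖α‖ * ‖β‖) := by
    rw [norm_smul, he, mul_one, norm_div, norm_mul, norm_mul, norm_pow, nm]
  have h2 : ‖((m : ℂ) * B / α) • e'‖ = m * ‖B‖ / ‖α‖ := by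
    rw [norm_smul, he', mul_one, norm_div, norm_mul, nm]
  have h3 : ‖((m : ℂ) * (l * D) / (α * β)) • Z‖ ≤ m * ‖D‖ * ‖Z‖ / (‖α‖ * ‖β‖) := by
    rw [norm_smul, norm_div, norm_mul, norm_mul, norm_mul, nm, nl, div_mul_eq_mul_div]
    apply div_le_div_of_nonneg_right _ (by positivity)
    apply mul_le_mul_of_nonneg_right _ (norm_nonneg _)
    apply mul_le_mul_of_nonneg_left _ hm
    calc l * ‖D‖ ≤ 1 * ‖D‖ := mul_le_mul_of_nonneg_right hl1 (norm_nonneg _)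
      _ = ‖D‖ := one_mul _
  calc _ ≤ ‖((m : ℂ) ^ 2 * D / (α * β)) • e + ((m : ℂ) * B / α) • e'‖ +
        ‖((m : ℂ) * (l * D) / (α * β)) • Z‖ := norm_add_le _ _
    _ ≤ (‖((m : ℂ) ^ 2 * D / (α * β)) • e‖ + ‖((m : ℂ) * B / α) • e'‖) +
        ‖((m : ℂ) * (l * D) / (α * β)) • Z‖ := by
        gcongr
        exact norm_add_le _ _
    _ ≤ _ := by rw [h1, h2]; gcongr

theorem nea_thm (hGMB : GMBStmt) : NEAStmt := by
  intro a b R C s₀ hL
  have hC : 0 ≤ C := by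
    have h := hL.bndb (1 / 2) (by simp)
    have h2 : (0 : ℝ) ≤ C * ‖(1 / 2 : ℂ)‖ := (norm_nonneg _).trans h
    by_contra hc
    push Not at hc
    have : (0 : ℝ) < ‖(1 / 2 : ℂ)‖ := by simp
    nlinarith
  refine ⟨112 * C + 1, by positivity, ?_⟩
  intro E _ _ e e' he he' hee l hl0 hl1 z hz
  set X : ℂ := inner ℂ e z with hX
  set Y : ℂ := inner ℂ e' z with hY
  set s : ℂ := X * Y with hs
  have hee1 : inner ℂ e e = (1 : ℂ) := by
    rw [inner_self_eq_norm_sq_to_K, he]; simp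
  have hee2 : inner ℂ e' e' = (1 : ℂ) := by
    rw [inner_self_eq_norm_sq_to_K, he']; simp
  have hee3 : inner ℂ e' e = (0 : ℂ) := by
    rw [← inner_conj_symm, hee]; simp
  -- Bessel
  have hort : ‖z - X • e‖ ^ 2 = ‖z‖ ^ 2 - ‖X‖ ^ 2 := by
    have h1 : ‖z‖ ^ 2 = ‖X • e‖ ^ 2 + ‖z - X • e‖ ^ 2 := by
      have h2 : inner ℂ (X • e) (z - X • e) = (0 : ℂ) := by
        rw [inner_smul_left, inner_sub_right, inner_smul_right, hee1, ← hX]; ring
      have h3 := norm_add_sq_eq_norm_sq_add_norm_sq_of_inner_eq_zero (𝕜 := ℂ) _ _ h2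
      rw [show X • e + (z - X • e) = z by abel] at h3
      nlinarith [h3]
    rw [norm_smul, he, mul_one] at h1
    linarith
  have hYW : ‖Y‖ ≤ ‖z - X • e‖ := by
    have h1 : inner ℂ e' (z - X • e) = Y := by
      rw [inner_sub_right, inner_smul_right, hee3, ← hY]; ring
    rw [← h1]
    calc ‖(inner ℂ e' (z - X • e) : ℂ)‖ ≤ ‖e'‖ * ‖z - X • e‖ := norm_inner_le_norm _ _
      _ = ‖z - X • e‖ := by rw [he', one_mul]
  have hbes : ‖X‖ ^ 2 + ‖Y‖ ^ 2 ≤ 1 := by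
    have h1 : ‖Y‖ ^ 2 ≤ ‖z - X • e‖ ^ 2 := pow_le_pow_left₀ (norm_nonneg _) hYW 2
    have h2 : ‖z‖ ^ 2 ≤ 1 := by nlinarith [norm_nonneg z]
    linarith
  have hX1 : ‖X‖ ≤ 1 := by nlinarith [norm_nonneg X, sq_nonneg ‖Y‖]
  have hs2 : ‖s‖ ≤ 1 / 2 := by
    rw [hs, norm_mul]; nlinarith [sq_nonneg (‖X‖ - ‖Y‖)]
  have hsY : ‖s‖ ≤ ‖Y‖ := by
    rw [hs, norm_mul]
    calc ‖X‖ * ‖Y‖ ≤ 1 * ‖Y‖ := mul_le_mul_of_nonneg_right hX1 (norm_nonneg _)
      _ = ‖Y‖ := one_mul _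
  set U : ℂ := X * a s with hU
  have hGe : inner ℂ e (Gm a b e e' z) = U := by
    unfold Gm
    rw [inner_add_right, inner_add_right, inner_smul_right, inner_smul_right, hee1, hee, ← hX,
      ← hY, ← hs, hU]
    ring
  have hUb : ‖U‖ ^ 2 ≤ 1 - ‖Y‖ ^ 2 / 2 := by
    have := hGMB a b R C s₀ hL E e e' he he' hee z hz
    rwa [hGe] at this
  have hU1 : ‖U‖ ≤ 1 := by nlinarith [norm_nonneg U, sq_nonneg ‖Y‖]
  set α : ℂ := 1 - l * U with hα
  set β : ℂ := 1 - l * X with hβ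
  have nl : ‖(l : ℂ)‖ = l := by rw [Complex.norm_real, Real.norm_eq_abs, abs_of_pos hl0]
  have hα1 : 1 - l * ‖U‖ ≤ ‖α‖ := by
    have := norm_sub_norm_le (1 : ℂ) (l * U)
    rw [norm_one, norm_mul, nl] at this
    exact this
  have hβ1 : 1 - l * ‖X‖ ≤ ‖β‖ := by
    have := norm_sub_norm_le (1 : ℂ) (l * X)
    rw [norm_one, norm_mul, nl] at this
    exact this
  have hαq : (1 - l + ‖Y‖ ^ 2) / 8 ≤ ‖α‖ := by
    have h1 : ‖Y‖ ^ 2 / 4 ≤ 1 - ‖U‖ := by nlinarith [norm_nonneg U]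
    nlinarith [norm_nonneg U, sq_nonneg ‖Y‖]
  have hβq : (1 - l + ‖Y‖ ^ 2) / 4 ≤ ‖β‖ := by
    have h1 : ‖Y‖ ^ 2 / 2 ≤ 1 - ‖X‖ := by nlinarith [norm_nonneg X]
    nlinarith [norm_nonneg X, sq_nonneg ‖Y‖]
  have hW2 : ‖z - X • e‖ ^ 2 ≤ 2 * ‖β‖ := by
    rw [hort]
    have h2 : ‖z‖ ^ 2 ≤ 1 := by nlinarith [norm_nonneg z]
    nlinarith [norm_nonneg X]
  have hδ : 0 < 1 - l := by linarith
  have hα0 : α ≠ 0 := by
    intro h
    rw [h, norm_zero] at hαq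
    nlinarith [sq_nonneg ‖Y‖]
  have hβ0 : β ≠ 0 := by
    intro h
    rw [h, norm_zero] at hβq
    nlinarith [sq_nonneg ‖Y‖]
  have hu : ‖U - X‖ ≤ C * ‖Y‖ ^ 3 := by
    have h1 : U - X = X * (a s - 1) := by rw [hU]; ring
    rw [h1, norm_mul]
    calc ‖X‖ * ‖a s - 1‖ ≤ 1 * (C * ‖s‖ ^ 3) :=
          mul_le_mul hX1 (hL.bnda s hs2) (norm_nonneg _) zero_le_one
      _ = C * ‖s‖ ^ 3 := one_mul _
      _ ≤ C * ‖Y‖ ^ 3 :=
          mul_le_mul_of_nonneg_left (pow_le_pow_left₀ (norm_nonneg _) hsY 3) hC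
  have hv : ‖Y * (b s - 1)‖ ≤ C * ‖Y‖ ^ 2 := by
    rw [norm_mul]
    calc ‖Y‖ * ‖b s - 1‖ ≤ ‖Y‖ * (C * ‖s‖) :=
          mul_le_mul_of_nonneg_left (hL.bndb s hs2) (norm_nonneg _)
      _ ≤ ‖Y‖ * (C * ‖Y‖) :=
          mul_le_mul_of_nonneg_left (mul_le_mul_of_nonneg_left hsY hC) (norm_nonneg _)
      _ = C * ‖Y‖ ^ 2 := by ring
  set m : ℝ := Real.sqrt (1 - l ^ 2) with hm
  have hm0 : 0 ≤ m := Real.sqrt_nonneg _
  have hmsq : m ^ 2 = 1 - l ^ 2 := Real.sq_sqrt (by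
    have h5 : l ^ 2 ≤ 1 ^ 2 := pow_le_pow_left₀ hl0.le hl1.le 2
    linarith)
  have hm2 : m ^ 2 ≤ 2 * (1 - l) := by
    rw [hmsq]
    have h5 := sq_nonneg (1 - l)
    ring_nf at h5 ⊢
    linarith
  have hmC : (m : ℂ) ^ 2 = 1 - (l : ℂ) ^ 2 := by
    rw [← Complex.ofReal_pow, hmsq]; push_cast; ring
  -- the formula
  have hGW : Gm a b e e' z - U • e = (z - X • e) + (Y * (b s - 1)) • e' := by
    unfold Gm
    rw [← hX, ← hY, ← hs, hU]
    module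
  have key : Pl (-l) e (Gm a b e e' z) - Pl (-l) e z =
      ((m : ℂ) ^ 2 * (U - X) / (α * β)) • e + ((m : ℂ) * (Y * (b s - 1)) / α) • e' +
        ((m : ℂ) * (l * (U - X)) / (α * β)) • (z - X • e) := by
    rw [← nea_formula e e' z X U (Y * (b s - 1)) m l α β hα hβ hα0 hβ0 hmC]
    unfold Pl
    rw [hGe, ← hX, hGW, neg_sq, ← hm]
    have e1 : (1 : ℂ) + ((-l : ℝ) : ℂ) * U = α := by rw [hα]; push_cast; ring
    have e2 : (1 : ℂ) + ((-l : ℝ) : ℂ) * X = β := by rw [hβ]; push_cast; ring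
    rw [e1, e2, Complex.ofReal_neg]
  rw [key]
  have hfin := nea_real (δ := 1 - l) (y := ‖Y‖) (α := ‖α‖) (β := ‖β‖) (W := ‖z - X • e‖)
    (u := ‖U - X‖) (v := ‖Y * (b s - 1)‖) (m := m) (C := C) hδ (norm_nonneg _) hC hαq hβq
    (norm_nonneg _) hW2 hu hv hm0 hm2
  refine (nea_norm e e' (z - X • e) he he' (U - X) (Y * (b s - 1)) α β m l hm0 hl0.le hl1.le).trans
    (hfin.trans ?_)
  apply mul_le_mul_of_nonneg_right _ (Real.sqrt_nonneg _)
  linarith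

end Pool.Agent.H6.FB
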