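import Pool.Agent.H6.FB.Stmts

set_option autoImplicit false

open Metric Set Filter Topology

namespace Pool.Agent.H6.FB

theorem tta_six : TTAStmt := by
  have h0 : 0 < e0 := Real.exp_pos _
  have h1 : e0 < 1 / 1000000 := by
    have h2 : (2 : ℝ) < Real.exp 1 := by
      have := Real.exp_one_gt_d9
      linarith
    have h3 : (2 : ℝ) ^ 64 < Real.exp 64 := by
      have : Real.exp 64 = Real.exp 1 ^ 64 := by
        rw [← Real.exp_nat_mul]; norm_num
      rw [this]
      exact pow_lt_pow_left₀ h2 (by norm_num) (by norm_num)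
    have h4 : e0 = (Real.exp 64)⁻¹ := by
      unfold e0; rw [Real.exp_neg]
    rw [h4, inv_lt_comm₀ (Real.exp_pos _) (by norm_num)]
    refine lt_trans ?_ h3
    norm_num
  have hc : cc = 2 - 3 / 2 * e0 := rfl
  have hc1 : 1 < cc := by rw [hc]; linarith
  have hc2 : cc < 2 := by rw [hc]; linarith
  have hR2 : RR ^ 2 = (2 - e0) / (2 - 3 / 2 * e0) := by
    unfold RR
    rw [Real.sq_sqrt]
    apply div_nonneg <;> linarith
  have hden : 0 < 2 - 3 / 2 * e0 := by linarith
  have hR0 : 0 ≤ RR := Real.sqrt_nonneg _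
  have hR1 : 1 < RR ^ 2 := by
    rw [hR2, lt_div_iff₀ hden]; linarith
  have hR3 : RR ^ 2 < 121 / 100 := by
    rw [hR2, div_lt_iff₀ hden]; linarith
  have hcc0 : 0 < cc := by linarith
  refine ⟨h0, h1, ?_, ?_, ?_, hc1, hc2, ?_, ?_, ?_⟩
  · nlinarith
  · nlinarith
  · rw [hR2, ← hc]; field_simp
  · unfold s0; rw [lt_div_iff₀ hcc0]; linarith
  · unfold s0; rw [div_lt_iff₀ hcc0]; rw [hc]; linarith
  · linarith

end Pool.Agent.H6.FB
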