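import Pool.Agent.H6.FB.Stmts

set_option autoImplicit false

open Metric Set Filter Topology

namespace Pool.Agent.H6.FB

theorem ttb_six (hA : TTAStmt) : TTBStmt := by
  obtain ⟨h0, h1, hR1, hR2, hcR, hc1, hc2, hs1, hs2, -⟩ := hA
  have hcn : ‖(cc : ℂ)‖ = cc := by
    rw [Complex.norm_real, Real.norm_eq_abs, abs_of_pos (by linarith)]
  have hz : ∀ s ∈ DD, ‖(cc : ℂ) * s‖ < 1 - e0 / 2 := by
    intro s hs
    have hs' : ‖s‖ < RR ^ 2 / 2 := by
      unfold DD at hs
      simpa using hs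
    rw [norm_mul, hcn, ← hcR]
    exact mul_lt_mul_of_pos_left hs' (by linarith)
  have hre : ∀ s ∈ DD, e0 / 2 < (1 - (cc : ℂ) * s).re := by
    intro s hs
    have h2 := Complex.re_le_norm ((cc : ℂ) * s)
    have h3 := hz s hs
    rw [Complex.sub_re, Complex.one_re]
    linarith
  have hslit : ∀ s ∈ DD, 1 - (cc : ℂ) * s ∈ Complex.slitPlane := by
    intro s hs
    left
    have := hre s hs
    linarith
  have hne : ∀ s ∈ DD, 1 - (cc : ℂ) * s ≠ 0 := fun s hs => Complex.slitPlane_ne_zero (hslit s hs)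
  have hexp : ∀ s ∈ DD, Complex.exp (-64 * tt s) = 1 - (cc : ℂ) * s := by
    intro s hs
    have : -64 * tt s = Complex.log (1 - (cc : ℂ) * s) := by unfold tt; ring
    rw [this, Complex.exp_log (hne s hs)]
  refine ⟨?_, ?_, ?_, ?_, ?_, ?_, ?_⟩
  · intro s hs
    apply DifferentiableAt.differentiableWithinAt
    have h2 : DifferentiableAt ℂ (fun s : ℂ => 1 - (cc : ℂ) * s) s := by fun_prop
    exact (h2.clog (hslit s hs)).const_mul _
  · unfold tt; simp
  · unfold tt
    have h2 : (1 : ℂ) - (cc : ℂ) * (s0 : ℂ) = ((e0 : ℝ) : ℂ) := by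
      have : cc * s0 = 1 - e0 := by
        unfold s0; field_simp
      rw [← Complex.ofReal_mul, this]; push_cast; ring
    rw [h2, ← Complex.ofReal_log h0.le]
    have : Real.log e0 = -64 := by unfold e0; exact Real.log_exp _
    rw [this]; push_cast; ring
  · intro s hs
    exact ⟨by have := hre s hs; linarith, hexp s hs⟩
  · intro s hs
    have hw := hne s hs
    have hnorm1 : e0 / 2 < ‖1 - (cc : ℂ) * s‖ := (hre s hs).trans_le (Complex.re_le_norm _)
    have hnorm2 : ‖1 - (cc : ℂ) * s‖ < 2 := by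
      calc ‖1 - (cc : ℂ) * s‖ ≤ ‖(1 : ℂ)‖ + ‖(cc : ℂ) * s‖ := norm_sub_le _ _
        _ < 2 := by rw [norm_one]; have := hz s hs; linarith
    have hn0 : 0 < ‖1 - (cc : ℂ) * s‖ := norm_pos_iff.2 hw
    have hl2 : Real.log 2 < 1 := by
      have := Real.log_two_lt_d9
      linarith
    have hre' : (tt s).re = -(1 / 64) * Real.log ‖1 - (cc : ℂ) * s‖ := by
      unfold tt
      rw [Complex.mul_re, Complex.log_re]
      simp
    have him' : (tt s).im = -(1 / 64) * Complex.arg (1 - (cc : ℂ) * s) := by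
      unfold tt
      rw [Complex.mul_im, Complex.log_im]
      simp
    refine ⟨?_, ?_, ?_⟩
    · rw [hre']
      have := Real.log_lt_log hn0 hnorm2
      linarith
    · rw [hre']
      have h3 := Real.log_lt_log (by positivity) hnorm1
      rw [Real.log_div h0.ne' (by norm_num)] at h3
      have : Real.log e0 = -64 := by unfold e0; exact Real.log_exp _
      rw [this] at h3
      linarith
    · rw [him']
      have harg : |Complex.arg (1 - (cc : ℂ) * s)| < Real.pi / 2 := by
        rw [Complex.abs_arg_lt_pi_div_two_iff]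
        left
        have := hre s hs
        linarith
      rw [abs_mul]
      have h5 : |(-(1 / 64) : ℝ)| = 1 / 64 := by norm_num
      rw [h5]
      have := Real.pi_lt_d2
      linarith
  · intro s hs s' hs' h
    have h2 := hexp s hs
    rw [h, hexp s' hs'] at h2
    have hc0 : (cc : ℂ) ≠ 0 := by
      rw [Ne, Complex.ofReal_eq_zero]; linarith
    have h3 : (cc : ℂ) * s = (cc : ℂ) * s' := by linear_combination h2
    exact mul_left_cancel₀ hc0 h3
  · intro s hs
    set z := (cc : ℂ) * s with hzd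
    have hz1 : ‖-z‖ < 1 := by rw [norm_neg]; linarith
    have h2 := Complex.norm_log_one_add_le hz1
    rw [norm_neg] at h2
    have h3 : Complex.log (1 + -z) = Complex.log (1 - z) := by rw [sub_eq_add_neg]
    rw [h3] at h2
    have h4 : ‖Complex.log (1 - z)‖ ≤ 2 * ‖z‖ := by
      have h5 : (1 - ‖z‖)⁻¹ ≤ 2 := by
        rw [inv_le_comm₀ (by linarith) (by norm_num)]
        linarith
      have h6 : 0 ≤ ‖z‖ := norm_nonneg z
      calc ‖Complex.log (1 - z)‖ ≤ ‖z‖ ^ 2 * (1 - ‖z‖)⁻¹ / 2 + ‖z‖ := h2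
        _ ≤ ‖z‖ ^ 2 * 2 / 2 + ‖z‖ := by gcongr
        _ ≤ 2 * ‖z‖ := by nlinarith
    have h5 : ‖z‖ ≤ 2 * ‖s‖ := by
      rw [hzd, norm_mul, hcn]
      exact mul_le_mul_of_nonneg_right hc2.le (norm_nonneg _)
    have h6 : ‖tt s‖ = 1 / 64 * ‖Complex.log (1 - z)‖ := by
      unfold tt
      rw [norm_mul, ← hzd]
      norm_num
    rw [h6]
    linarith

end Pool.Agent.H6.FB
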