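import Pool.Agent.H6.FB.Fin
import Pool.Agent.H6.FB.TTA
import Pool.Agent.H6.FB.TTB
import Pool.Agent.H6.FB.NEA
import Pool.Agent.H6.FB.CRA
import Pool.Agent.H45.FB.TTC
import Pool.Agent.H45.FB.EEE
import Pool.Agent.H45.FB.BBB
import Pool.Agent.H45.FB.BDA
import Pool.Agent.H45.FB.OSA
import Pool.Agent.H45.FB.SEP
import Pool.Agent.H83.FB.BDB
import Pool.Agent.H83.FB.SQA
import Pool.Agent.H83.FB.OSG
import Pool.Agent.H33.FB.INJ
import Pool.Agent.H33.FB.LCZ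
import Pool.Agent.H4.FB.LOC
import Pool.Agent.H4.FB.PLA
import Pool.Agent.H70.FB.GMA
import Pool.Agent.H70.FB.LSU
import Pool.Agent.H70.FB.HUR
import Pool.Agent.H62.FB.GMB
import Pool.Agent.H62.FB.DIF
import Pool.Agent.H62.FB.NRM
import Pool.Agent.H74.FB.OSB
import Pool.Agent.H36.FB.ZER
import Pool.Agent.H36.FB.INV
import Pool.Agent.H36.FB.RGE
import Pool.Agent.H21.FB.ORD
import Pool.Agent.H21.FB.CRV
import Pool.Agent.H21.FB.OSC
import Pool.Agent.H21.FB.DSC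
import Pool.Agent.H85.FB.STE
import Pool.Agent.H85.FB.EXI
import Pool.Agent.H26.FB.SEQ
import Pool.Agent.H12.FB.LRG
import Pool.Agent.H49.FB.ROB

/-!
# Project FB (MP_d89f1e_an): all modules together
-/

set_option autoImplicit false

open Metric Set Filter Topology

namespace Pool.Agent.H6.FB

theorem all_loc : LOCStmt :=
  have hA := tta_six
  have hB := ttb_six hA
  have hC := ttc_thm hA hB
  have hb := bbb_thm hA hB eee_thm
  loc_thm hA hB hb (bdb_thm hA hB hb bda_thm) (sqa_thm hA hB bda_thm) (inj_thm hA hB hC hb)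

theorem all_lcz : LCZStmt := lcz_thm all_loc pla_thm gma gmb_thm (nea_thm gmb_thm)

theorem all_osg : OSGStmt :=
  osg_thm osa_thm (osb_thm dif_thm) (osc_thm dif_thm (crv_thm dif_thm zer_thm (ord_thm dif_thm)))

theorem all_inv : INVStmt := inv_thm dif_thm all_osg

theorem all_hur : HURStmt := hur all_osg (lsu dif_thm)

theorem all_exi : EXIStmt := exi_thm (ste_thm all_lcz) (rob_thm all_hur) sep_thm seq_thm

theorem all_rge : RGEStmt := rge_thm (dsc_thm all_hur) all_inv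

theorem main (n : ℕ) (hn : 2 ≤ n) (F : EE n → EE n) (hF : DifferentiableOn ℂ F (ball 0 1))
    (hFi : InjOn F (ball 0 1)) (hF0 : F 0 = 0)
    (hF1 : fderiv ℂ F 0 = ContinuousLinearMap.id ℂ (EE n)) (r ε : ℝ) (hr : r < 1) (hε : 0 < ε) :
    ∃ f : EE n → EE n,
      ContinuousOn f (closedBall 0 1) ∧ InjOn f (closedBall 0 1) ∧
      DifferentiableOn ℂ f (ball 0 1) ∧ f 0 = 0 ∧
      fderiv ℂ f 0 = ContinuousLinearMap.id ℂ (EE n) ∧
      (∀ z ∈ closedBall (0 : EE n) r, ‖f z - F z‖ < ε) ∧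
      ¬ (∀ g : EE n → ℂ, DifferentiableOn ℂ g (f '' ball 0 1) →
          ∀ K : Set (EE n), IsCompact K → K ⊆ f '' ball 0 1 → ∀ δ : ℝ, 0 < δ →
          ∃ p : MvPolynomial (Fin n) ℂ, ∀ z ∈ K,
            ‖g z - MvPolynomial.eval (fun i => EuclideanSpace.proj i z) p‖ < δ) ∧
      (∀ Ω : Set (EE n), IsOpen Ω → IsConnected Ω → f '' ball 0 1 ⊂ Ω →
        ¬ (∀ g : EE n → ℂ, DifferentiableOn ℂ g (f '' ball 0 1) →
          ∀ K : Set (EE n), IsCompact K → K ⊆ f '' ball 0 1 → ∀ δ : ℝ, 0 < δ →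
          ∃ h : EE n → ℂ, DifferentiableOn ℂ h Ω ∧ ∀ z ∈ K, ‖g z - h z‖ < δ)) ∧
      ∀ (Ω : Set (EE n)) (Ψ : ℕ → EE n → EE n),
        (∀ k, Differentiable ℂ (Ψ k) ∧ Function.Injective (Ψ k) ∧ Set.range (Ψ k) = Ω) →
        ¬ TendstoLocallyUniformlyOn Ψ f atTop (ball 0 1) :=
  fin_thm (nrm_thm all_exi) (cra_thm all_inv all_hur) all_rge (lrg_thm all_rge all_inv)
    n hn F hF hFi hF0 hF1 r ε hr hε

end Pool.Agent.H6.FB
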