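import Pool.Agent.H6.FB.Defs

/-!
# Project FB (MP_d89f1e_an): statements of the modules
-/

set_option autoImplicit false

open Metric Set Filter Topology

namespace Pool.Agent.H6.FB

/-! ### Part 1: one variable -/

/-- TTA: numbers -/
def TTAStmt : Prop :=
  0 < e0 ∧ e0 < 1 / 1000000 ∧ 1 < RR ∧ RR < 11 / 10 ∧ cc * (RR ^ 2 / 2) = 1 - e0 / 2 ∧
    1 < cc ∧ cc < 2 ∧ 2 / 5 < s0 ∧ s0 < 1 / 2 ∧ 1 / 2 < RR ^ 2 / 2

/-- TTB: the function `tt` -/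
def TTBStmt : Prop :=
  DifferentiableOn ℂ tt DD ∧ tt 0 = 0 ∧ tt (s0 : ℂ) = 1 ∧
    (∀ s ∈ DD, 0 < (1 - (cc : ℂ) * s).re ∧ Complex.exp (-64 * tt s) = 1 - (cc : ℂ) * s) ∧
    (∀ s ∈ DD, -(1 / 64) < (tt s).re ∧ (tt s).re < 65 / 64 ∧ |(tt s).im| < 1 / 40) ∧
    (∀ s ∈ DD, ∀ s' ∈ DD, tt s = tt s' → s = s') ∧
    (∀ s : ℂ, ‖(cc : ℂ) * s‖ ≤ 1 / 2 → ‖tt s‖ ≤ ‖s‖ / 16)

/-- TTC: pairs of points with the same value -/
def TTCStmt : Prop :=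
  ∀ s ∈ DD, ∀ s' ∈ DD, tt s' = tt s + 1 → ‖tt s‖ ≤ ‖s‖ / 16 ∧ (tt s).re ≤ 1 / 64

/-- EEE: the entire function `E2` -/
def EEEStmt : Prop :=
  Differentiable ℂ E2 ∧
    (∀ w : ℂ, Complex.exp (2 * Real.pi * Complex.I * w) - 1 = w * (w - 1) * E2 w) ∧
    E2 0 = -(2 * Real.pi * Complex.I) ∧ E2 1 = 2 * Real.pi * Complex.I ∧
    (∀ w : ℂ, -1 < w.re → w.re < 2 → E2 w ≠ 0)

/-- BBB: the function `bb` -/
def BBBStmt : Prop :=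
  DifferentiableOn ℂ bb DD ∧ bb 0 = 1 ∧ (∀ s ∈ DD, bb s ≠ 0) ∧ 14 ≤ ‖bb (s0 : ℂ)‖ ∧
    ∃ κ : ℂ, κ ≠ 0 ∧ ∀ s ∈ DD,
      s * aa s * bb s = κ * (Complex.exp (2 * Real.pi * Complex.I * tt s) - 1)

/-- BDA: `AA` is close to `1` -/
def BDAStmt : Prop := ∀ t : ℂ, ‖AA t - 1‖ ≤ ‖t‖ ^ 3 * Real.exp (‖t‖ + ‖t‖ ^ 2 / 2)

/-- BDB: bounds of `aa - 1` and `bb - 1` -/
def BDBStmt : Prop :=
  ∃ C : ℝ, ∀ s : ℂ, ‖s‖ ≤ 1 / 2 → ‖aa s - 1‖ ≤ C * ‖s‖ ^ 3 ∧ ‖bb s - 1‖ ≤ C * ‖s‖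

/-- SQA: the bound of `|aa|^2` -/
def SQAStmt : Prop := ∀ s : ℂ, ‖s‖ ≤ 1 / 2 → ‖aa s‖ ^ 2 ≤ 1 + ‖s‖ ^ 2 / 2

/-- INJ: injectivity in dimension two -/
def INJStmt : Prop :=
  ∀ x y x' y' : ℂ, ‖x‖ < RR → ‖y‖ < RR → ‖x'‖ < RR → ‖y'‖ < RR → x * y ∈ DD → x' * y' ∈ DD →
    x * aa (x * y) = x' * aa (x' * y') → y * bb (x * y) = y' * bb (x' * y') → x = x' ∧ y = y'

/-- LOC: the pair `aa`, `bb` -/
def LOCStmt : Prop := ∃ (a b : ℂ → ℂ) (R C : ℝ) (s₀ : ℂ), Loc a b R C s₀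

/-! ### Part 2: the local model -/

/-- PLA: the automorphisms of the ball -/
def PLAStmt : Prop :=
  ∀ (E : Type) [NormedAddCommGroup E] [InnerProductSpace ℂ E] (e : E), ‖e‖ = 1 →
    ∀ l : ℝ, |l| < 1 →
    (∀ z : E, ‖z‖ ≤ 1 → 1 + (l : ℂ) * inner ℂ e z ≠ 0 ∧ ‖Pl l e z‖ ≤ 1) ∧
    (∀ z : E, ‖z‖ < 1 → ‖Pl l e z‖ < 1) ∧
    (∀ z : E, 1 + (l : ℂ) * inner ℂ e z ≠ 0 →
      1 + ((-l : ℝ) : ℂ) * inner ℂ e (Pl l e z) ≠ 0 ∧ Pl (-l) e (Pl l e z) = z) ∧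
    DifferentiableOn ℂ (Pl l e) {z : E | 1 + (l : ℂ) * inner ℂ e z ≠ 0}

/-- GMA: the map `G` -/
def GMAStmt : Prop :=
  ∀ (a b : ℂ → ℂ) (R C : ℝ) (s₀ : ℂ), Loc a b R C s₀ →
    ∀ (E : Type) [NormedAddCommGroup E] [InnerProductSpace ℂ E] (e e' : E), ‖e‖ = 1 → ‖e'‖ = 1 →
    inner ℂ e e' = 0 →
    DifferentiableOn ℂ (Gm a b e e') (ball 0 R) ∧ InjOn (Gm a b e e') (ball 0 R) ∧
    (∀ z : E, inner ℂ e (Gm a b e e' z) = inner ℂ e z * a (inner ℂ e z * inner ℂ e' z)) ∧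
    (2 : ℂ) • e' ∉ Gm a b e e' '' ball 0 R ∧
    ∀ ζ : ℂ, ‖ζ‖ = 1 → (((‖b s₀‖ / Real.sqrt 2 : ℝ) : ℂ) * ζ) • e' ∈ Gm a b e e' '' ball 0 1

/-- GMB: the size of the first coordinate -/
def GMBStmt : Prop :=
  ∀ (a b : ℂ → ℂ) (R C : ℝ) (s₀ : ℂ), Loc a b R C s₀ →
    ∀ (E : Type) [NormedAddCommGroup E] [InnerProductSpace ℂ E] (e e' : E), ‖e‖ = 1 → ‖e'‖ = 1 →
    inner ℂ e e' = 0 → ∀ z : E, ‖z‖ ≤ 1 →
    ‖(inner ℂ e (Gm a b e e' z) : ℂ)‖ ^ 2 ≤ 1 - ‖(inner ℂ e' z : ℂ)‖ ^ 2 / 2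

/-- NEA: the maps `P_{-l} G` and `P_{-l}` are close on the closed ball -/
def NEAStmt : Prop :=
  ∀ (a b : ℂ → ℂ) (R C : ℝ) (s₀ : ℂ), Loc a b R C s₀ → ∃ K : ℝ, 0 < K ∧
    ∀ (E : Type) [NormedAddCommGroup E] [InnerProductSpace ℂ E] (e e' : E), ‖e‖ = 1 → ‖e'‖ = 1 →
    inner ℂ e e' = 0 → ∀ l : ℝ, 0 < l → l < 1 → ∀ z : E, ‖z‖ ≤ 1 →
    ‖Pl (-l) e (Gm a b e e' z) - Pl (-l) e z‖ ≤ K * Real.sqrt (1 - l)

/-- LCZ: the local model -/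
def LCZStmt : Prop :=
  ∀ (E : Type) [NormedAddCommGroup E] [InnerProductSpace ℂ E] [FiniteDimensional ℂ E],
    2 ≤ Module.finrank ℂ E → ∀ v : E, ‖v‖ = 1 → ∀ ε > 0, ∃ h : E → E, Good h ∧
      (∀ z ∈ closedBall (0 : E) 1, ‖h z - z‖ < ε) ∧ ∃ p q : E,
        (∀ ζ ∈ closedBall (0 : ℂ) 1, ‖p + ζ • q - v‖ < ε) ∧
        (∀ ζ ∈ sphere (0 : ℂ) 1, p + ζ • q ∈ h '' ball (0 : E) 1) ∧
        ∃ ζ ∈ closedBall (0 : ℂ) 1, p + ζ • q ∉ h '' closedBall (0 : E) 1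

/-! ### Part 3: several variables -/

/-- DIF: holomorphic maps have holomorphic derivatives; strict differentiability -/
def DIFStmt : Prop :=
  ∀ (E F : Type) [NormedAddCommGroup E] [NormedSpace ℂ E] [FiniteDimensional ℂ E]
    [NormedAddCommGroup F] [NormedSpace ℂ F] [CompleteSpace F] (f : E → F) (U : Set E),
    IsOpen U → DifferentiableOn ℂ f U →
    DifferentiableOn ℂ (fderiv ℂ f) U ∧ (∀ n : ℕ, ContDiffOn ℂ n f U) ∧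
    ∀ p ∈ U, HasStrictFDerivAt f (fderiv ℂ f p) p

/-- OSA: Osgood's theorem in dimension one -/
def OSAStmt : Prop :=
  ∀ (f : ℂ → ℂ) (U : Set ℂ), IsOpen U → DifferentiableOn ℂ f U → InjOn f U → ∀ p ∈ U,
    deriv f p ≠ 0

/-- Osgood's theorem in dimension `n` -/
def Osg (n : ℕ) : Prop :=
  ∀ (E F : Type) [NormedAddCommGroup E] [NormedSpace ℂ E] [FiniteDimensional ℂ E]
    [NormedAddCommGroup F] [NormedSpace ℂ F] [FiniteDimensional ℂ F],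
    Module.finrank ℂ E = n → Module.finrank ℂ F = n → ∀ (f : E → F) (U : Set E), IsOpen U →
    DifferentiableOn ℂ f U → InjOn f U → ∀ p ∈ U, Function.Injective (fderiv ℂ f p)

/-- OSB: the case of a nonzero derivative -/
def OSBStmt : Prop :=
  ∀ n : ℕ, Osg n → ∀ (E F : Type) [NormedAddCommGroup E] [NormedSpace ℂ E]
    [FiniteDimensional ℂ E] [NormedAddCommGroup F] [NormedSpace ℂ F] [FiniteDimensional ℂ F],
    Module.finrank ℂ E = n + 1 → Module.finrank ℂ F = n + 1 → ∀ (f : E → F) (U : Set E),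
    IsOpen U → DifferentiableOn ℂ f U → InjOn f U → ∀ p ∈ U, fderiv ℂ f p ≠ 0 →
    Function.Injective (fderiv ℂ f p)

/-- ZER: zeros on nearby lines -/
def ZERStmt : Prop :=
  ∀ (E : Type) [NormedAddCommGroup E] [NormedSpace ℂ E] [FiniteDimensional ℂ E] (g : E → ℂ)
    (U : Set E) (z₀ v : E), IsOpen U → DifferentiableOn ℂ g U → z₀ ∈ U → g z₀ = 0 →
    (¬ ∀ᶠ ζ in 𝓝 (0 : ℂ), g (z₀ + ζ • v) = 0) → ∀ ρ > 0, ∀ᶠ z in 𝓝 z₀, ∃ ζ : ℂ, ‖ζ‖ < ρ ∧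
      g (z + ζ • v) = 0

/-- ORD: a direction and a point of minimal order -/
def ORDStmt : Prop :=
  ∀ (E : Type) [NormedAddCommGroup E] [NormedSpace ℂ E] [FiniteDimensional ℂ E] (g : E → ℂ)
    (U : Set E) (p : E), IsOpen U → DifferentiableOn ℂ g U → p ∈ U → g p = 0 →
    (¬ ∀ᶠ z in 𝓝 p, g z = 0) → ∃ (v z₀ : E) (G : E → ℂ), z₀ ∈ U ∧ g z₀ = 0 ∧
      DifferentiableOn ℂ G U ∧ (∀ᶠ z in 𝓝 z₀, g z = 0 → G z = 0) ∧ fderiv ℂ G z₀ v ≠ 0 ∧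
      ¬ ∀ᶠ ζ in 𝓝 (0 : ℂ), g (z₀ + ζ • v) = 0

/-- CRV: a hypersurface contains an injective holomorphic disc -/
def CRVStmt : Prop :=
  ∀ (E : Type) [NormedAddCommGroup E] [NormedSpace ℂ E] [FiniteDimensional ℂ E],
    2 ≤ Module.finrank ℂ E → ∀ (g : E → ℂ) (U : Set E) (p : E), IsOpen U →
    DifferentiableOn ℂ g U → p ∈ U → g p = 0 → (¬ ∀ᶠ z in 𝓝 p, g z = 0) →
    ∃ (c : ℂ → E) (δ : ℝ), 0 < δ ∧ DifferentiableOn ℂ c (ball 0 δ) ∧ InjOn c (ball 0 δ) ∧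
      ∀ s ∈ ball (0 : ℂ) δ, c s ∈ U ∧ g (c s) = 0

/-- OSC: the case of a zero derivative -/
def OSCStmt : Prop :=
  ∀ (E F : Type) [NormedAddCommGroup E] [NormedSpace ℂ E]
    [FiniteDimensional ℂ E] [NormedAddCommGroup F] [NormedSpace ℂ F] [FiniteDimensional ℂ F],
    2 ≤ Module.finrank ℂ E → Module.finrank ℂ F = Module.finrank ℂ E → ∀ (f : E → F) (U : Set E),
    IsOpen U → DifferentiableOn ℂ f U → InjOn f U →
    (∀ q ∈ U, fderiv ℂ f q ≠ 0 → Function.Injective (fderiv ℂ f q)) → ∀ p ∈ U, fderiv ℂ f p ≠ 0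

/-- OSG: Osgood's theorem -/
def OSGStmt : Prop := ∀ n : ℕ, Osg n

/-- INV: injective holomorphic maps are open with holomorphic inverse -/
def INVStmt : Prop :=
  ∀ (E : Type) [NormedAddCommGroup E] [NormedSpace ℂ E] [FiniteDimensional ℂ E] (f : E → E)
    (U : Set E), IsOpen U → DifferentiableOn ℂ f U → InjOn f U →
    (∀ V : Set E, IsOpen V → V ⊆ U → IsOpen (f '' V)) ∧
    ∀ g : E → E, (∀ z ∈ U, g (f z) = z) → DifferentiableOn ℂ g (f '' U)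

/-- LSU: local surjectivity, stable under small perturbations -/
def LSUStmt : Prop :=
  ∀ (E : Type) [NormedAddCommGroup E] [NormedSpace ℂ E] [FiniteDimensional ℂ E] (F : E → E)
    (U : Set E), IsOpen U → DifferentiableOn ℂ F U → ∀ p ∈ U,
    Function.Injective (fderiv ℂ F p) → ∃ ρ > 0, closedBall p ρ ⊆ U ∧ ∃ σ > 0, ∃ η > 0,
      ∀ f : E → E, DifferentiableOn ℂ f U → (∀ z ∈ closedBall p ρ, ‖f z - F z‖ < η) →
        ball (F p) σ ⊆ f '' closedBall p ρ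

/-- HUR: compact sets in the image stay in the image -/
def HURStmt : Prop :=
  ∀ (E : Type) [NormedAddCommGroup E] [NormedSpace ℂ E] [FiniteDimensional ℂ E] (F : E → E),
    DifferentiableOn ℂ F (ball 0 1) → InjOn F (ball 0 1) → ∀ K : Set E, IsCompact K →
    K ⊆ F '' ball 0 1 → ∃ r : ℝ, 0 < r ∧ r < 1 ∧ ∃ η > 0, ∀ f : E → E,
      DifferentiableOn ℂ f (ball 0 1) → (∀ z ∈ closedBall (0 : E) r, ‖f z - F z‖ < η) →
      K ⊆ f '' closedBall 0 r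

/-! ### Part 4: the construction -/

/-- STE: one step -/
def STEStmt : Prop :=
  ∀ (E : Type) [NormedAddCommGroup E] [InnerProductSpace ℂ E] [FiniteDimensional ℂ E],
    2 ≤ Module.finrank ℂ E → ∀ F : E → E, Good F → ∀ v : E, ‖v‖ = 1 → ∀ ε > 0,
    ∃ F' : E → E, Good F' ∧ (∀ z ∈ closedBall (0 : E) 1, ‖F' z - F z‖ < ε) ∧
      ∃ d : ℂ → E, Bad F' d ∧ ∀ ζ ∈ closedBall (0 : ℂ) 1, ‖d ζ - F' v‖ < ε

/-- ROB: bad discs are stable -/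
def ROBStmt : Prop :=
  ∀ (E : Type) [NormedAddCommGroup E] [NormedSpace ℂ E] [FiniteDimensional ℂ E] (F : E → E)
    (d : ℂ → E), Good F → Bad F d → ∃ η > 0, ∀ f : E → E, Nice f →
      (∀ z ∈ closedBall (0 : E) 1, ‖f z - F z‖ < η) → Bad f d

/-- SEP: separation of points is stable -/
def SEPStmt : Prop :=
  ∀ (E : Type) [NormedAddCommGroup E] [NormedSpace ℂ E] [FiniteDimensional ℂ E] (F : E → E),
    Good F → ∀ δ > 0, ∃ c > 0, ∃ η > 0, ∀ f : E → E,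
      (∀ z ∈ closedBall (0 : E) 1, ‖f z - F z‖ < η) → ∀ x ∈ closedBall (0 : E) 1,
      ∀ y ∈ closedBall (0 : E) 1, δ ≤ ‖x - y‖ → c ≤ ‖f x - f y‖

/-- SEQ: the category argument -/
def SEQStmt : Prop :=
  ∀ (E : Type) [NormedAddCommGroup E] [NormedSpace ℂ E] [FiniteDimensional ℂ E]
    (P : ℕ → (E → E) → Prop),
    (∀ k : ℕ, ∀ F : E → E, Good F → ∀ ε > 0, ∃ F' : E → E, Good F' ∧
      (∀ z ∈ closedBall (0 : E) 1, ‖F' z - F z‖ < ε) ∧ ∃ η > 0, ∀ f : E → E, Nice f →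
        (∀ z ∈ closedBall (0 : E) 1, ‖f z - F' z‖ < η) → P k f) →
    ∀ F : E → E, Good F → ∀ ε > 0, ∃ f : E → E, Nice f ∧
      (∀ z ∈ closedBall (0 : E) 1, ‖f z - F z‖ < ε) ∧ ∀ k, P k f

/-- EXI: existence -/
def EXIStmt : Prop :=
  ∀ (E : Type) [NormedAddCommGroup E] [InnerProductSpace ℂ E] [FiniteDimensional ℂ E],
    2 ≤ Module.finrank ℂ E → ∀ F : E → E, Good F → ∀ ε > 0, ∃ f : E → E, Nice f ∧
      InjOn f (closedBall 0 1) ∧ BD f ∧ ∀ z ∈ closedBall (0 : E) 1, ‖f z - F z‖ < ε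

/-! ### Part 5: consequences -/

/-- CRA: no sequence with a common range -/
def CRAStmt : Prop :=
  ∀ (E : Type) [NormedAddCommGroup E] [NormedSpace ℂ E] [FiniteDimensional ℂ E] (f : E → E),
    1 ≤ Module.finrank ℂ E → Nice f → InjOn f (closedBall 0 1) → BD f →
    ∀ (Ω : Set E) (Ψ : ℕ → E → E),
      (∀ k, Differentiable ℂ (Ψ k) ∧ Function.Injective (Ψ k) ∧ Set.range (Ψ k) = Ω) →
      ¬ TendstoLocallyUniformlyOn Ψ f atTop (ball 0 1)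

/-- DSC: the inverse of `f` on the boundary of a bad disc is not almost holomorphic in the disc -/
def DSCStmt : Prop :=
  ∀ (E : Type) [NormedAddCommGroup E] [NormedSpace ℂ E] [FiniteDimensional ℂ E] (f : E → E)
    (d : ℂ → E), Nice f → InjOn f (ball 0 1) → Bad f d → ∃ δ > 0, ∀ H : ℂ → E,
      ContinuousOn H (closedBall 0 1) → DifferentiableOn ℂ H (ball 0 1) →
      ∃ ζ ∈ sphere (0 : ℂ) 1, ∃ w ∈ ball (0 : E) 1, f w = d ζ ∧ δ ≤ ‖H ζ - w‖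

/-- RGE: a bad disc in `Ω` excludes that `(f(B), Ω)` is a Runge pair -/
def RGEStmt : Prop :=
  ∀ (E : Type) [NormedAddCommGroup E] [NormedSpace ℂ E] [FiniteDimensional ℂ E] (f : E → E)
    (d : ℂ → E) (Ω : Set E), Nice f → InjOn f (ball 0 1) → Bad f d → IsOpen Ω →
    (∀ ζ ∈ closedBall (0 : ℂ) 1, d ζ ∈ Ω) → ¬ RungeP (f '' ball 0 1) Ω

/-- LRG: no strictly larger domain -/
def LRGStmt : Prop :=
  ∀ (E : Type) [NormedAddCommGroup E] [NormedSpace ℂ E] [FiniteDimensional ℂ E] (f : E → E),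
    1 ≤ Module.finrank ℂ E → Nice f → InjOn f (closedBall 0 1) → BD f →
    ∀ Ω : Set E, IsOpen Ω → IsPreconnected Ω → f '' ball 0 1 ⊂ Ω →
      ¬ RungeP (f '' ball 0 1) Ω

/-- NRM: normalisation and dilation -/
def NRMStmt : Prop :=
  ∀ (E : Type) [NormedAddCommGroup E] [InnerProductSpace ℂ E] [FiniteDimensional ℂ E],
    2 ≤ Module.finrank ℂ E → ∀ F : E → E, DifferentiableOn ℂ F (ball 0 1) → InjOn F (ball 0 1) →
    F 0 = 0 → fderiv ℂ F 0 = ContinuousLinearMap.id ℂ E → ∀ r ε : ℝ, r < 1 → 0 < ε →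
    ∃ f : E → E, Nice f ∧ InjOn f (closedBall 0 1) ∧ BD f ∧ f 0 = 0 ∧
      fderiv ℂ f 0 = ContinuousLinearMap.id ℂ E ∧ ∀ z ∈ closedBall (0 : E) r, ‖f z - F z‖ < ε

end Pool.Agent.H6.FB
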